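import Pool.Agent.helper44.NLT.Spec

set_option autoImplicit false

open Complex Metric Set Filter Topology MeasureTheory MPS
open Pool.Agent.helper98.ILF Pool.Agent.helper16.Multibrot

noncomputable section

namespace NLT

/-- Iterates of the family are differentiable in the space variable. -/
theorem ALP_diff (n : ℕ) (x : ℂ) (i : ℕ) : Differentiable ℂ ((fun w : ℂ => w ^ n + x)^[i]) := by
  induction i with
  | zero => exact differentiable_id
  | succ i ih =>
    rw [Function.iterate_succ']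
    exact Differentiable.comp ((differentiable_id.pow n).add_const x) ih

/-- Recursion for the derivative of the iterates. -/
theorem ALP_deriv (n : ℕ) (x : ℂ) (i : ℕ) (w : ℂ) :
    deriv ((fun w : ℂ => w ^ n + x)^[i + 1]) w =
      (n * ((fun w : ℂ => w ^ n + x)^[i] w) ^ (n - 1)) * deriv ((fun w : ℂ => w ^ n + x)^[i]) w := by
  have h1 : HasDerivAt (fun w : ℂ => w ^ n + x) (n * ((fun w : ℂ => w ^ n + x)^[i] w) ^ (n - 1))
      ((fun w : ℂ => w ^ n + x)^[i] w) := by
    exact (hasDerivAt_pow n _).add_const x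
  have h2 : HasDerivAt ((fun w : ℂ => w ^ n + x)^[i]) (deriv ((fun w : ℂ => w ^ n + x)^[i]) w) w :=
    ((ALP_diff n x i) w).hasDerivAt
  rw [Function.iterate_succ']
  exact (h1.comp w h2).deriv

/-- Holomorphic dependence on the parameter. -/
theorem ALP_param (n : ℕ) (α : ℂ → ℂ) (s : Set ℂ) (hα : DifferentiableOn ℂ α s) (i : ℕ) :
    DifferentiableOn ℂ (fun x => (fun w : ℂ => w ^ n + x)^[i] (α x)) s ∧
      DifferentiableOn ℂ (fun x => deriv ((fun w : ℂ => w ^ n + x)^[i]) (α x)) s := by
  induction i with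
  | zero =>
    refine ⟨hα, ?_⟩
    have h : (fun x => deriv ((fun w : ℂ => w ^ n + x)^[0]) (α x)) = fun _ : ℂ => (1 : ℂ) := by
      funext x
      have h0 : ((fun w : ℂ => w ^ n + x)^[0]) = fun w : ℂ => w := rfl
      rw [h0, deriv_id'']
    rw [h]
    exact differentiableOn_const _
  | succ i ih =>
    obtain ⟨ih1, ih2⟩ := ih
    constructor
    · have h : (fun x => (fun w : ℂ => w ^ n + x)^[i + 1] (α x)) =
          fun x => ((fun w : ℂ => w ^ n + x)^[i] (α x)) ^ n + x := by
        funext x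
        rw [Function.iterate_succ_apply']
      rw [h]
      exact (ih1.pow n).add differentiableOn_id
    · have h : (fun x => deriv ((fun w : ℂ => w ^ n + x)^[i + 1]) (α x)) =
          fun x => (n * ((fun w : ℂ => w ^ n + x)^[i] (α x)) ^ (n - 1)) * deriv ((fun w : ℂ => w ^ n + x)^[i]) (α x) := by
        funext x
        exact ALP_deriv n x i (α x)
      rw [h]
      exact ((differentiableOn_const _).mul (ih1.pow (n - 1))).mul ih2

theorem ALP (hXIB : XIB_stmt) (hATT : ATT_stmt) (hVIT : VIT_stmt) (hTMO : V3.TMO_stmt) : ALP_stmt := by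
  intro n c c₁ r hn hball hc₁ hyp
  obtain ⟨-, hdiff, hM, hiter, -⟩ := hXIB n hn
  obtain ⟨p, j, δ, hp, hδ, hatt⟩ := hATT n c₁ hn hyp
  have hUU : ((hyperfilter ℕ : Ultrafilter ℕ) : Filter ℕ) ≤ atTop := Nat.hyperfilter_le_atTop
  have hG : ∀ x ∈ ball c r, Tendsto (fun k : ℕ => xi n (j + (k + 1) * p) x - xi n (j + k * p) x) atTop (𝓝 0) := by
    apply hVIT (fun k x => xi n (j + (k + 1) * p) x - xi n (j + k * p) x) c c₁ r δ 4 hδ hc₁
    · intro k
      exact ((hdiff _).sub (hdiff _)).differentiableOn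
    · intro k x hx
      have h1 := hM x (hball hx) (j + (k + 1) * p)
      have h2 := hM x (hball hx) (j + k * p)
      exact (norm_sub_le _ _).trans (by linarith)
    · intro x hx
      obtain ⟨z, hz, -, -⟩ := hatt x hx
      have h1 : Tendsto (fun k : ℕ => xi n (j + (k + 1) * p) x) atTop (𝓝 z) :=
        hz.comp (tendsto_add_atTop_nat 1)
      have h2 := h1.sub hz
      rwa [sub_self] at h2
  obtain ⟨α, hα, hconv⟩ := hTMO (hyperfilter ℕ) (fun k => xi n (j + k * p)) (ball c r) isOpen_ball (by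
    intro x hx
    obtain ⟨s, hs, hsub⟩ := Metric.isOpen_iff.1 isOpen_ball x hx
    refine ⟨s, hs, 2, Eventually.of_forall fun m => ⟨(hdiff _).differentiableOn, fun y hy => ?_⟩⟩
    exact hM y (hball (hsub hy)) _)
  have hpt : ∀ x ∈ ball c r, Tendsto (fun k : ℕ => xi n (j + k * p) x) (hyperfilter ℕ : Filter ℕ) (𝓝 (α x)) := by
    intro x hx
    exact hconv.tendsto_at hx
  have hpar := ALP_param n α (ball c r) hα p
  refine ⟨p, j, α, hp, hα, hpar.2, ?_, ?_⟩
  · obtain ⟨z, hz, -, hz2⟩ := hatt c₁ (mem_ball_self hδ)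
    have h1 : Tendsto (fun k : ℕ => xi n (j + k * p) c₁) (hyperfilter ℕ : Filter ℕ) (𝓝 z) := hz.mono_left hUU
    have h2 : z = α c₁ := tendsto_nhds_unique h1 (hpt c₁ hc₁)
    rw [← h2]
    exact hz2
  · intro x hx
    refine ⟨?_, hG x hx, ?_⟩
    · have hcont : Continuous ((fun w : ℂ => w ^ n + x)^[p]) := (ALP_diff n x p).continuous
      have h1 : Tendsto (fun k : ℕ => (fun w : ℂ => w ^ n + x)^[p] (xi n (j + k * p) x)) (hyperfilter ℕ : Filter ℕ)
          (𝓝 ((fun w : ℂ => w ^ n + x)^[p] (α x))) := (hcont.tendsto _).comp (hpt x hx)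
      have h2 : (fun k : ℕ => (fun w : ℂ => w ^ n + x)^[p] (xi n (j + k * p) x)) =
          fun k : ℕ => (xi n (j + (k + 1) * p) x - xi n (j + k * p) x) + xi n (j + k * p) x := by
        funext k
        rw [hiter, sub_add_cancel]
        congr 1
        ring
      rw [h2] at h1
      have h3 := ((hG x hx).mono_left hUU).add (hpt x hx)
      rw [zero_add] at h3
      exact tendsto_nhds_unique h1 h3
    · intro ε hε K
      have h1 : ∀ᶠ k : ℕ in (hyperfilter ℕ : Filter ℕ), ‖xi n (j + k * p) x - α x‖ < ε := by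
        have := (hpt x hx).eventually (Metric.ball_mem_nhds (α x) hε)
        filter_upwards [this] with k hk
        rw [← dist_eq_norm]
        exact hk
      have h2 : ∀ᶠ k : ℕ in (hyperfilter ℕ : Filter ℕ), K ≤ k := hUU (eventually_ge_atTop K)
      obtain ⟨k, hk1, hk2⟩ := (h1.and h2).exists
      exact ⟨k, hk2, hk1⟩

end NLT
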